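import Pool.Agent.helper64.D2.SpecC

set_option autoImplicit false

open Filter Topology
open scoped commutatorElement

namespace Pool.Agent.helper64.D2

theorem APP_bern (x : ℝ) (hx : 0 ≤ x) (j : ℕ) (hj : (j : ℝ) * x ≤ 1) :
    (1 + x) ^ j * (1 - j * x) ≤ 1 := by
  induction j with
  | zero => simp
  | succ j ih =>
    push_cast at hj ⊢
    have h1 : (j : ℝ) * x ≤ 1 := by linarith
    have h2 := ih h1
    have h3 : (0 : ℝ) ≤ (1 + x) ^ j := by positivity
    have h4 : (1 + x) * (1 - (j + 1) * x) ≤ 1 - j * x := by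
      have : (0 : ℝ) ≤ (j + 1) * x * x := by positivity
      nlinarith
    calc (1 + x) ^ (j + 1) * (1 - (j + 1) * x) = (1 + x) ^ j * ((1 + x) * (1 - (j + 1) * x)) := by
          rw [pow_succ]; ring
      _ ≤ (1 + x) ^ j * (1 - j * x) := mul_le_mul_of_nonneg_left h4 h3
      _ ≤ 1 := h2

theorem APP_pow (a : ℝ) (n : ℕ) (ha : 0 ≤ a) (hna : (n : ℝ) * a ≤ 1 / 100) (c : ℝ) (hc0 : 0 ≤ c)
    (hc : c ≤ 4) (j : ℕ) (hj : j ≤ n) : (1 + c * a) ^ j ≤ 25 / 24 := by
  have h1 : (j : ℝ) * a ≤ 1 / 100 := by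
    have : (j : ℝ) ≤ n := by exact_mod_cast hj
    calc (j : ℝ) * a ≤ n * a := mul_le_mul_of_nonneg_right this ha
      _ ≤ 1 / 100 := hna
  have h0 : (0 : ℝ) ≤ (j : ℝ) * a := by positivity
  have h2 : (j : ℝ) * (4 * a) ≤ 1 / 25 := by linarith
  have h3 := APP_bern (4 * a) (by linarith) j (by linarith)
  have h4 : (0 : ℝ) ≤ (1 + 4 * a) ^ j := by positivity
  have h5 : (1 + 4 * a) ^ j ≤ 25 / 24 := by
    nlinarith
  refine le_trans ?_ h5
  apply pow_le_pow_left₀
  · have : 0 ≤ c * a := by positivity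
    linarith
  · have : c * a ≤ 4 * a := mul_le_mul_of_nonneg_right hc ha
    linarith

theorem APP_Sz1 (c : ℝ) (hc : 0 ≤ c) : Sz 1 c := by
  intro x
  have h1 : ev 1 = fun x => x := by
    funext x
    exact ev_one x
  have h2 : d2 (ev 1) x = 0 := by
    unfold d2
    rw [h1]
    simp
  rw [h2, abs_zero]
  exact hc

theorem APP_lip (X : ℝ → ℝ) (hX : ContDiff ℝ 2 X) (a : ℝ) (ha : ∀ x, |d2 X x| ≤ a) (x y : ℝ) :
    |deriv X x - deriv X y| ≤ a * |x - y| := by
  have hd : Differentiable ℝ (deriv X) := (hX.iterate_deriv' 1 1).differentiable one_ne_zero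
  have h := Convex.norm_image_sub_le_of_norm_deriv_le (f := deriv X) (s := Set.univ) (C := a)
    (fun z _ => hd z) (fun z _ => by rw [Real.norm_eq_abs]; exact ha z) convex_univ
    (Set.mem_univ y) (Set.mem_univ x)
  simpa [Real.norm_eq_abs] using h

theorem APP_mvt (X : ℝ → ℝ) (hX : ContDiff ℝ 2 X) (L θ : ℝ) (hL : 0 ≤ L)
    (hθ : 0 < θ) (hl : ∀ x y, |d2 X x - d2 X y| ≤ L * |x - y|) (x : ℝ) :
    |d2 X x - (deriv X x - deriv X (x - θ)) / θ| ≤ L * θ := by
  have hd : Differentiable ℝ (deriv X) := (hX.iterate_deriv' 1 1).differentiable one_ne_zero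
  obtain ⟨c, hc, hce⟩ := exists_deriv_eq_slope (deriv X) (show x - θ < x by linarith)
    hd.continuous.continuousOn hd.differentiableOn
  have h1 : (deriv X x - deriv X (x - θ)) / θ = d2 X c := by
    unfold d2
    rw [hce]
    congr 1
    ring
  rw [h1]
  refine (hl x c).trans (mul_le_mul_of_nonneg_left ?_ hL)
  rw [abs_le]
  exact ⟨by linarith [hc.2], by linarith [hc.1]⟩

/-- difference quotient of the derivative -/
noncomputable def APP_U (X : ℝ → ℝ) (t x : ℝ) : ℝ := (deriv X x - deriv X (x - t)) / t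

theorem APP_U_lip (X : ℝ → ℝ) (hX : ContDiff ℝ 2 X) (a t : ℝ) (ht : 0 < t)
    (ha : ∀ x, |d2 X x| ≤ a) (x y : ℝ) : |APP_U X t x - APP_U X t y| ≤ 2 * a * |x - y| / t := by
  have h1 := APP_lip X hX a ha x y
  have h2 := APP_lip X hX a ha (x - t) (y - t)
  rw [show x - t - (y - t) = x - y by ring] at h2
  have h3 : APP_U X t x - APP_U X t y =
      ((deriv X x - deriv X y) - (deriv X (x - t) - deriv X (y - t))) / t := by
    unfold APP_U
    ring
  rw [h3, abs_div, abs_of_pos ht]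
  apply div_le_div_of_nonneg_right _ ht.le
  calc |(deriv X x - deriv X y) - (deriv X (x - t) - deriv X (y - t))|
      ≤ |deriv X x - deriv X y| + |deriv X (x - t) - deriv X (y - t)| := abs_sub _ _
    _ ≤ a * |x - y| + a * |x - y| := add_le_add h1 h2
    _ = 2 * a * |x - y| := by ring

theorem APP_U_double (X : ℝ → ℝ) (t x : ℝ) (ht : 0 < t) :
    APP_U X (2 * t) x = (APP_U X t x + APP_U X t (x - t)) / 2 := by
  unfold APP_U
  rw [show x - t - t = x - 2 * t by ring]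
  field_simp
  ring

/-- the invariant -/
def APP_I (X : ℝ → ℝ) (p q a L θ : ℝ) (j : ℕ) (s : DD × (ℝ → ℝ)) : Prop :=
  Rep s.1 s.2 ∧ St s.2 p (q + (2 ^ j - 1) * θ) (a * (1 + 2 * a) ^ j)
    ((1 + 4 * a) ^ j * (L + 12 * j * a ^ 2)) ∧ (∀ x, |deriv s.2 x| ≤ a / 2 * (1 + 1 * a) ^ j) ∧
  ∀ x, |d2 s.2 x - APP_U X (2 ^ j * θ) x| ≤ L * θ + 5 * j * a ^ 2

theorem APP_step (C : ℝ) (hC : 1 ≤ C)
    (hP : ∀ (R : DD) (X : ℝ → ℝ) (p q a L lam θ : ℝ), Rep R X → St X p q a L →
      (∀ x, |deriv X x| ≤ lam) →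
      lam ≤ 1 / 8 → 0 ≤ a → a ≤ 1 / 8 → 0 ≤ L → 1 / 4 ≤ p → p ≤ q → q + θ ≤ 3 / 4 → 0 < θ →
      C * θ ≤ 1 →
      ∃ (T x2 : DD) (X' v : ℝ → ℝ), Rep (⁅T, x2⁆ * R) X' ∧
        St X' p (q + θ) (a * (1 + 2 * lam)) (L * (1 + 4 * lam) + 3 * a ^ 2) ∧
        (∀ x, |deriv X' x| ≤ lam * (1 + lam)) ∧ Sz T (C * θ) ∧ Sz x2 (3 * a) ∧
        ∀ u, |v u - (u - θ)| ≤ lam * θ ∧ |d2 X' u - (d2 X u + d2 X (v u)) / 2| ≤ 2 * lam * a)
    (n : ℕ) (X : ℝ → ℝ) (p q a L θ : ℝ) (hX : ContDiff ℝ 2 X) (hXa : ∀ x, |d2 X x| ≤ a)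
    (hL : 0 ≤ L) (ha : 0 ≤ a) (ha1 : a ≤ 1 / 100) (hna : (n : ℝ) * a ≤ 1 / 100) (hp : 1 / 4 ≤ p)
    (hpq : p ≤ q) (hq : q + 2 ^ n * θ ≤ 3 / 4) (hθ : 0 < θ) (hCθ : C * (2 ^ n * θ) ≤ 1)
    (j : ℕ) (hj : j < n) (s : DD × (ℝ → ℝ)) (hs : APP_I X p q a L θ j s) :
    ∃ (s' : DD × (ℝ → ℝ)) (T x2 : DD), APP_I X p q a L θ (j + 1) s' ∧ s'.1 = ⁅T, x2⁆ * s.1 ∧
      Sz T (C * (2 ^ n * θ)) ∧ Sz x2 (6 * a) := by
  obtain ⟨h1, h2, h3, h4⟩ := hs
  have e1 := APP_pow a n ha hna 1 (by norm_num) (by norm_num) j hj.le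
  have e2 := APP_pow a n ha hna 2 (by norm_num) (by norm_num) j hj.le
  have e4 := APP_pow a n ha hna 4 (by norm_num) (by norm_num) j hj.le
  have f1 : (0 : ℝ) ≤ (1 + 1 * a) ^ j := by positivity
  have f2 : (0 : ℝ) ≤ (1 + 2 * a) ^ j := by positivity
  have f4 : (0 : ℝ) ≤ (1 + 4 * a) ^ j := by positivity
  set lam := a / 2 * (1 + 1 * a) ^ j with hlam
  set A := a * (1 + 2 * a) ^ j with hA
  set Λ := (1 + 4 * a) ^ j * (L + 12 * j * a ^ 2) with hΛ
  have hlam0 : 0 ≤ lam := by positivity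
  have hlama : lam ≤ a := by
    rw [hlam]
    nlinarith
  have hA0 : 0 ≤ A := by positivity
  have hA2 : A ≤ 2 * a := by
    rw [hA]
    nlinarith
  have hΛ0 : 0 ≤ Λ := by positivity
  have hpow : (2 : ℝ) ^ (j + 1) ≤ 2 ^ n := pow_le_pow_right₀ (by norm_num) hj
  have hpow1 : (1 : ℝ) ≤ 2 ^ j := one_le_pow₀ (by norm_num)
  have ht0 : 0 < (2 : ℝ) ^ j * θ := by positivity
  have hp2 : (2 : ℝ) ^ (j + 1) = 2 * 2 ^ j := by rw [pow_succ]; ring
  have ht1 : (2 : ℝ) ^ j * θ ≤ 2 ^ n * θ := by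
    apply mul_le_mul_of_nonneg_right _ hθ.le
    linarith
  obtain ⟨T, x2, X', v, g1, g2, g3, g4, g5, g6⟩ := hP s.1 s.2 p (q + (2 ^ j - 1) * θ) A Λ lam
    (2 ^ j * θ) h1 h2 h3 (by linarith) hA0 (by linarith) hΛ0 hp
    (by nlinarith) (by nlinarith) ht0
    (le_trans (mul_le_mul_of_nonneg_left ht1 (by linarith)) hCθ)
  refine ⟨(⁅T, x2⁆ * s.1, X'), T, x2, ⟨g1, ?_, ?_, ?_⟩, rfl, ?_, ?_⟩
  · obtain ⟨k1, k2, k3, k4⟩ := g2
    refine ⟨k1, ?_, ?_, ?_⟩
    · intro x hx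
      apply k2 x
      intro hx'
      apply hx
      refine ⟨hx'.1, hx'.2.trans ?_⟩
      rw [hp2]
      linarith
    · intro x
      refine (k3 x).trans ?_
      rw [pow_succ]
      calc A * (1 + 2 * lam) ≤ A * (1 + 2 * a) := by
            apply mul_le_mul_of_nonneg_left _ hA0
            linarith
        _ = a * ((1 + 2 * a) ^ j * (1 + 2 * a)) := by rw [hA]; ring
    · intro x y
      refine (k4 x y).trans (mul_le_mul_of_nonneg_right ?_ (abs_nonneg _))
      have m1 : Λ * (1 + 4 * lam) ≤ Λ * (1 + 4 * a) := by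
        apply mul_le_mul_of_nonneg_left _ hΛ0
        linarith
      have m2 : A ^ 2 ≤ (2 * a) ^ 2 := pow_le_pow_left₀ hA0 hA2 2
      have m3 : (1 : ℝ) ≤ (1 + 4 * a) ^ (j + 1) := one_le_pow₀ (by linarith)
      have m4 : 12 * a ^ 2 ≤ (1 + 4 * a) ^ (j + 1) * (12 * a ^ 2) :=
        le_mul_of_one_le_left (by positivity) m3
      have m5 : Λ * (1 + 4 * a) = (1 + 4 * a) ^ (j + 1) * (L + 12 * j * a ^ 2) := by
        rw [hΛ, pow_succ]; ring
      push_cast
      calc Λ * (1 + 4 * lam) + 3 * A ^ 2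
          ≤ (1 + 4 * a) ^ (j + 1) * (L + 12 * j * a ^ 2) + 12 * a ^ 2 := by
            rw [← m5]; nlinarith
        _ ≤ (1 + 4 * a) ^ (j + 1) * (L + 12 * j * a ^ 2) +
              (1 + 4 * a) ^ (j + 1) * (12 * a ^ 2) := by linarith
        _ = (1 + 4 * a) ^ (j + 1) * (L + 12 * (j + 1) * a ^ 2) := by ring
  · intro x
    refine (g3 x).trans ?_
    rw [pow_succ]
    calc lam * (1 + lam) ≤ lam * (1 + 1 * a) := by
          apply mul_le_mul_of_nonneg_left _ hlam0
          linarith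
      _ = a / 2 * ((1 + 1 * a) ^ j * (1 + 1 * a)) := by rw [hlam]; ring
  · intro x
    obtain ⟨r1, r2⟩ := g6 x
    have r3 := h4 x
    have r4 := h4 (v x)
    have r5 := APP_U_lip X hX a (2 ^ j * θ) ht0 hXa (v x) (x - 2 ^ j * θ)
    have r6 : 2 * a * |v x - (x - 2 ^ j * θ)| / (2 ^ j * θ) ≤ 2 * a * a := by
      rw [div_le_iff₀ ht0]
      have : |v x - (x - 2 ^ j * θ)| ≤ a * (2 ^ j * θ) :=
        r1.trans (mul_le_mul_of_nonneg_right hlama ht0.le)
      calc 2 * a * |v x - (x - 2 ^ j * θ)| ≤ 2 * a * (a * (2 ^ j * θ)) :=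
            mul_le_mul_of_nonneg_left this (by positivity)
        _ = 2 * a * a * (2 ^ j * θ) := by ring
    have r7 := APP_U_double X (2 ^ j * θ) x ht0
    rw [show (2 : ℝ) ^ (j + 1) * θ = 2 * (2 ^ j * θ) by rw [hp2]; ring, r7]
    have r8 : 2 * lam * A ≤ 4 * a ^ 2 := by
      calc 2 * lam * A ≤ 2 * a * (2 * a) :=
            mul_le_mul (by linarith) hA2 hA0 (by linarith)
        _ = 4 * a ^ 2 := by ring
    have r9 := r5.trans r6
    simp only at *
    have r10 : d2 X' x - (APP_U X (2 ^ j * θ) x + APP_U X (2 ^ j * θ) (x - 2 ^ j * θ)) / 2 =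
        (d2 X' x - (d2 s.2 x + d2 s.2 (v x)) / 2) +
        (d2 s.2 x - APP_U X (2 ^ j * θ) x) / 2 +
        (d2 s.2 (v x) - APP_U X (2 ^ j * θ) (v x)) / 2 +
        (APP_U X (2 ^ j * θ) (v x) - APP_U X (2 ^ j * θ) (x - 2 ^ j * θ)) / 2 := by ring
    rw [r10]
    push_cast
    rw [abs_le] at r2 r3 r4 r9 ⊢
    constructor
    · linarith [r2.1, r3.1, r4.1, r9.1]
    · linarith [r2.2, r3.2, r4.2, r9.2]
  · intro x
    refine (g4 x).trans ?_
    exact mul_le_mul_of_nonneg_left ht1 (by linarith)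
  · intro x
    refine (g5 x).trans ?_
    linarith

theorem APP (hPAS : PAS_stmt) : APP_stmt := by
  classical
  obtain ⟨C, hC, hP⟩ := hPAS
  refine ⟨C, hC, ?_⟩
  intro n R X p q a L θ hR hS hL ha ha1 hna hp hpq hq hθ hCθ
  obtain ⟨hX, hX0, hXa, hXL⟩ := hS
  have ht : 0 < (2 : ℝ) ^ n * θ := by positivity
  have step : ∀ (j : ℕ) (s : DD × (ℝ → ℝ)), (j ≤ n → APP_I X p q a L θ j s) →
      ∃ (s' : DD × (ℝ → ℝ)) (T x2 : DD), (j + 1 ≤ n → APP_I X p q a L θ (j + 1) s') ∧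
        s'.1 = ⁅T, x2⁆ * s.1 ∧ Sz T (C * (2 ^ n * θ)) ∧ Sz x2 (6 * a) ∧
        (n ≤ j → T = 1 ∧ x2 = 1) := by
    intro j s hs
    by_cases hj : j < n
    · obtain ⟨s', T, x2, k1, k2, k3, k4⟩ := APP_step C hC hP n X p q a L θ hX hXa hL ha ha1 hna
        hp hpq hq hθ hCθ j hj s (hs hj.le)
      exact ⟨s', T, x2, fun _ => k1, k2, k3, k4, fun h => absurd h (not_le.2 hj)⟩
    · refine ⟨s, 1, 1, fun h => absurd h (by omega), ?_, APP_Sz1 _ (by positivity),
        APP_Sz1 _ (by positivity), fun _ => ⟨rfl, rfl⟩⟩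
      simp
  choose! f T x2 k1 k2 k3 k4 k5 using step
  set s : ℕ → DD × (ℝ → ℝ) := fun j => Nat.rec (R, X) (fun j s => f j s) j with hs
  have hs0 : s 0 = (R, X) := rfl
  have hs1 : ∀ j, s (j + 1) = f j (s j) := fun j => rfl
  have hI : ∀ j, j ≤ n → APP_I X p q a L θ j (s j) := by
    intro j
    induction j with
    | zero =>
      intro _
      rw [hs0]
      refine ⟨hR, ⟨hX, ?_, ?_, ?_⟩, ?_, ?_⟩
      · intro x hx
        apply hX0
        simpa using hx
      · simpa using hXa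
      · simpa using hXL
      · intro x
        by_cases hx : x ∈ Set.Icc p q
        · -- from `p - 1`
          have h0 : deriv X p = 0 := by
            have hc : Continuous (deriv X) := (hX.continuous_deriv (by norm_num))
            have h1 : Tendsto (deriv X) (𝓝[<] p) (𝓝 (deriv X p)) :=
              hc.continuousAt.tendsto.mono_left nhdsWithin_le_nhds
            have h2 : ∀ᶠ y in 𝓝[<] p, deriv X y = 0 := by
              filter_upwards [self_mem_nhdsWithin] with y hy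
              have : X =ᶠ[𝓝 y] fun _ => 0 := by
                filter_upwards [Iio_mem_nhds hy] with z hz
                exact hX0 z (fun h => absurd h.1 (not_le.2 hz))
              rw [this.deriv_eq]
              simp
            have h3 : Tendsto (deriv X) (𝓝[<] p) (𝓝 0) :=
              tendsto_const_nhds.congr' (h2.mono fun y hy => hy.symm)
            exact tendsto_nhds_unique h1 h3
          have h1 := APP_lip X hX a hXa x p
          rw [h0, sub_zero] at h1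
          refine h1.trans ?_
          have h2 : |x - p| ≤ 1 / 2 := by
            rw [abs_le]
            exact ⟨by linarith [hx.1], by linarith [hx.2]⟩
          simp only [pow_zero, mul_one]
          calc a * |x - p| ≤ a * (1 / 2) := mul_le_mul_of_nonneg_left h2 ha
            _ = a / 2 := by ring
        · have h0 : deriv X x = 0 := by
            have : X =ᶠ[𝓝 x] fun _ => 0 := by
              filter_upwards [isClosed_Icc.isOpen_compl.mem_nhds hx] with z hz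
              exact hX0 z hz
            rw [this.deriv_eq]
            simp
          rw [show deriv (R, X).2 x = 0 from h0, abs_zero]
          positivity
      · intro x
        have h := APP_mvt X hX L θ hL hθ hXL x
        simpa [APP_U] using h
    | succ j ih =>
      intro hj
      rw [hs1]
      exact k1 j (s j) (fun h => ih h) hj
  have hI' : ∀ j, (j ≤ n → APP_I X p q a L θ j (s j)) := hI
  refine ⟨fun j => (s j).1, fun j => T j (s j), fun j => x2 j (s j), fun j => (s j).2, ?_, ?_, ?_,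
    ?_, ?_, ?_⟩
  · rfl
  · intro j
    show (s (j + 1)).1 = _
    rw [hs1]
    exact k2 j (s j) (hI' j)
  · intro j hj
    obtain ⟨h1, ⟨h2, h3, h4, h5⟩, _, _⟩ := hI j hj
    refine ⟨h1, h2, ?_, ?_, ?_⟩
    · intro x hx
      apply h3 x
      intro hx'
      apply hx
      refine ⟨hx'.1, hx'.2.trans ?_⟩
      have h6 : (2 : ℝ) ^ j ≤ 2 ^ n := pow_le_pow_right₀ (by norm_num) hj
      nlinarith
    · intro x
      refine (h4 x).trans ?_
      have e2 := APP_pow a n ha hna 2 (by norm_num) (by norm_num) j hj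
      nlinarith
    · intro x y
      refine (h5 x y).trans (mul_le_mul_of_nonneg_right ?_ (abs_nonneg _))
      have e4 := APP_pow a n ha hna 4 (by norm_num) (by norm_num) j hj
      have f4 : (0 : ℝ) ≤ (1 + 4 * a) ^ j := by positivity
      have hja : (j : ℝ) * a ≤ 1 / 100 := by
        have : (j : ℝ) ≤ n := by exact_mod_cast hj
        exact (mul_le_mul_of_nonneg_right this ha).trans hna
      have h7 : 12 * (j : ℝ) * a ^ 2 ≤ 1 / 100 := by
        have h8 : (0 : ℝ) ≤ (j : ℝ) * a := by positivity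
        nlinarith
      have h8 : (0 : ℝ) ≤ 12 * (j : ℝ) * a ^ 2 := by positivity
      calc (1 + 4 * a) ^ j * (L + 12 * j * a ^ 2) ≤ 25 / 24 * (L + 12 * j * a ^ 2) :=
            mul_le_mul_of_nonneg_right e4 (by linarith)
        _ ≤ 2 * L + 1 := by linarith
  · intro j
    exact ⟨k3 j (s j) (hI' j), k4 j (s j) (hI' j)⟩
  · intro j hj
    exact k5 j (s j) (hI' j) hj
  · intro x
    exact (hI n le_rfl).2.2.2 x

end Pool.Agent.helper64.D2
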