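import Pool.Agent.helper64.D2.SpecR

set_option autoImplicit false

open Filter Topology
open scoped commutatorElement

namespace Pool.Agent.helper64.D2

theorem RI3_right (X : ℝ → ℝ) (q : ℝ) (hc : Continuous X) (h0 : ∀ x, q < x → X x = 0) : X q = 0 := by
  have h1 : Tendsto X (𝓝[>] q) (𝓝 (X q)) := hc.continuousWithinAt
  have h2 : Tendsto X (𝓝[>] q) (𝓝 0) := by
    refine tendsto_const_nhds.congr' ?_
    filter_upwards [self_mem_nhdsWithin] with x hx
    exact (h0 x hx).symm
  exact tendsto_nhds_unique h1 h2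

theorem RI3 (hRG1 : RG1_stmt) : RI3_stmt := by
  intro X G p q a lam hSH hG F θ hF hF0 hθ0 hθ1
  obtain ⟨hH, hHm, G0, hG0, hG0m, hG0id, hG0d⟩ := hRG1 X p q a lam hSH
  obtain ⟨hX2, hX0, hX', hX'', hp, hpq, hq, hl0, hl1, ha⟩ := hSH
  have hGG : G = G0 := by
    funext y
    have h1 := hG.1 (G0 y)
    rw [hG0.2.1 y] at h1
    exact h1
  subst hGG
  obtain ⟨hGl, hGr, hGc⟩ := hG
  have hXc : Continuous X := hX2.continuous
  have hX'c : Continuous (deriv X) := hX2.continuous_deriv (by norm_num)
  have hHc : Continuous (Hh X) := by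
    unfold Hh
    exact continuous_id.add (hXc.div_const 2)
  have hden : ∀ u, 0 < 1 + deriv X u / 2 := by
    intro u
    have h1 := abs_le.1 (hX' u)
    linarith [h1.1]
  set φ : ℝ → ℝ := fun w => G (Hh X w + θ) with hφ
  have hφc : Continuous φ := hGc.comp (hHc.add continuous_const)
  have hφd : ∀ w, HasDerivAt φ ((1 + deriv X w / 2) / (1 + deriv X (φ w) / 2)) w := by
    intro w
    have h1 : HasDerivAt (fun w => Hh X w + θ) (1 + deriv X w / 2) w := (hH w).add_const θ
    have h2 := (hG0d (Hh X w + θ)).comp w h1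
    have h3 : (1 + deriv X w / 2) / (1 + deriv X (φ w) / 2) =
        1 / (1 + deriv X (G (Hh X w + θ)) / 2) * (1 + deriv X w / 2) := by
      rw [hφ]
      ring
    rw [h3]
    exact h2
  have hφ'c : Continuous (fun w => (1 + deriv X w / 2) / (1 + deriv X (φ w) / 2)) := by
    refine Continuous.div (continuous_const.add (hX'c.div_const 2))
      (continuous_const.add ((hX'c.comp hφc).div_const 2)) ?_
    intro w
    exact (hden (φ w)).ne'
  have hgc : Continuous (fun u => F u (G (Hh X u - θ))) := by
    have h1 : Continuous (fun u : ℝ => ((u, G (Hh X u - θ)) : ℝ × ℝ)) :=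
      continuous_id.prodMk (hGc.comp (hHc.sub continuous_const))
    exact hF.comp h1
  have hsub := intervalIntegral.integral_comp_mul_deriv (a := -θ) (b := 1 - θ)
    (f := φ) (f' := fun w => (1 + deriv X w / 2) / (1 + deriv X (φ w) / 2))
    (g := fun u => F u (G (Hh X u - θ))) (fun x _ => hφd x) hφ'c.continuousOn hgc
  have hX00 : X (-θ) = 0 := by
    apply hX0
    intro h
    linarith [h.1]
  have hX1 : X (1 - θ) = 0 := by
    rcases (show q ≤ 1 - θ by linarith).eq_or_lt with h | h
    · rw [← h]
      refine RI3_right X q hXc ?_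
      intro x hx
      apply hX0
      intro h'
      linarith [h'.2]
    · apply hX0
      intro h'
      linarith [h'.2]
  have hXz : X 0 = 0 := by
    apply hX0
    intro h
    linarith [h.1]
  have hXo : X 1 = 0 := by
    apply hX0
    intro h
    linarith [h.2]
  have e0 : φ (-θ) = 0 := by
    have h1 : Hh X (-θ) + θ = Hh X 0 := by
      unfold Hh
      rw [hX00, hXz]
      ring
    show G (Hh X (-θ) + θ) = 0
    rw [h1]
    exact hGl 0
  have e1 : φ (1 - θ) = 1 := by
    have h1 : Hh X (1 - θ) + θ = Hh X 1 := by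
      unfold Hh
      rw [hX1, hXo]
      ring
    show G (Hh X (1 - θ) + θ) = 1
    rw [h1]
    exact hGl 1
  rw [e0, e1] at hsub
  rw [← hsub]
  have hcongr : ∀ w, ((fun u => F u (G (Hh X u - θ))) ∘ φ) w *
      ((1 + deriv X w / 2) / (1 + deriv X (φ w) / 2)) =
      F (φ w) w * ((1 + deriv X w / 2) / (1 + deriv X (φ w) / 2)) := by
    intro w
    have h1 : G (Hh X (φ w) - θ) = w := by
      have h2 : Hh X (φ w) = Hh X w + θ := hGr (Hh X w + θ)
      rw [h2, add_sub_cancel_right]
      exact hGl w
    show F (φ w) (G (Hh X (φ w) - θ)) * _ = _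
    rw [h1]
  rw [intervalIntegral.integral_congr (g := fun w => F (φ w) w *
    ((1 + deriv X w / 2) / (1 + deriv X (φ w) / 2))) (fun w _ => hcongr w)]
  have hhc : Continuous (fun w => F (φ w) w * ((1 + deriv X w / 2) / (1 + deriv X (φ w) / 2))) := by
    have h1 : Continuous (fun w : ℝ => ((φ w, w) : ℝ × ℝ)) := hφc.prodMk continuous_id
    exact (hF.comp h1).mul hφ'c
  have i1 : (∫ w in (-θ)..0, F (φ w) w * ((1 + deriv X w / 2) / (1 + deriv X (φ w) / 2))) = 0 := by
    apply intervalIntegral.integral_zero_ae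
    refine Filter.Eventually.of_forall ?_
    intro w hw
    rw [Set.uIoc_of_le (by linarith)] at hw
    rw [hF0 (φ w) w (fun h => by linarith [h.1, hw.2]), zero_mul]
  have i2 : (∫ w in (1 - θ)..1, F (φ w) w * ((1 + deriv X w / 2) / (1 + deriv X (φ w) / 2))) = 0 := by
    apply intervalIntegral.integral_zero_ae
    refine Filter.Eventually.of_forall ?_
    intro w hw
    rw [Set.uIoc_of_le (by linarith)] at hw
    rw [hF0 (φ w) w (fun h => by linarith [h.2, hw.1]), zero_mul]
  have s1 := intervalIntegral.integral_add_adjacent_intervals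
    (hhc.intervalIntegrable (-θ) (1 - θ) (μ := MeasureTheory.volume)) (hhc.intervalIntegrable (1 - θ) 1)
  have s2 := intervalIntegral.integral_add_adjacent_intervals
    (hhc.intervalIntegrable (-θ) 0 (μ := MeasureTheory.volume)) (hhc.intervalIntegrable 0 1)
  rw [i2, add_zero] at s1
  rw [i1, zero_add] at s2
  rw [s1, ← s2]

end Pool.Agent.helper64.D2
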